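import Pool.Agent.QSX.StmtsE

/-! Row ENQ of squad QSX: comparison of norms. -/

set_option autoImplicit false

namespace Pool.Agent.QSX.H28

open Matrix Finset Pool.Agent.QSX

attribute [local instance] Matrix.normedAddCommGroup Matrix.normedSpace

theorem sz_nonneg {m : ℕ} (x : Matrix (Fin m) (Fin m) ℝ) : 0 ≤ sz x :=
  Finset.sum_nonneg fun i _ => Finset.sum_nonneg fun j _ => abs_nonneg (x i j)

theorem norm_le_sz {m : ℕ} (x : Matrix (Fin m) (Fin m) ℝ) : ‖x‖ ≤ sz x := by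
  rw [Matrix.norm_le_iff (sz_nonneg x)]
  intro i j
  rw [Real.norm_eq_abs]
  have h1 : |x i j| ≤ ∑ j, |x i j| :=
    Finset.single_le_sum (f := fun j => |x i j|) (fun j _ => abs_nonneg _) (Finset.mem_univ j)
  have h2 : ∑ j, |x i j| ≤ sz x :=
    Finset.single_le_sum (f := fun i => ∑ j, |x i j|)
      (fun i _ => Finset.sum_nonneg fun j _ => abs_nonneg _) (Finset.mem_univ i)
  exact h1.trans h2

theorem sz_le_norm {m : ℕ} (x : Matrix (Fin m) (Fin m) ℝ) : sz x ≤ (m * m : ℝ) * ‖x‖ := by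
  have h : sz x ≤ ∑ _i : Fin m, ∑ _j : Fin m, ‖x‖ := by
    refine Finset.sum_le_sum fun i _ => Finset.sum_le_sum fun j _ => ?_
    rw [← Real.norm_eq_abs]
    exact Matrix.norm_entry_le_entrywise_sup_norm x
  refine h.trans (le_of_eq ?_)
  simp only [Finset.sum_const, Finset.card_univ, Fintype.card_fin, nsmul_eq_mul]
  ring

theorem two_sided {V W : Type} [NormedAddCommGroup V] [NormedSpace ℝ V] [FiniteDimensional ℝ V]
    [NormedAddCommGroup W] [NormedSpace ℝ W] (T : V →ₗ[ℝ] W) (hT : Function.Injective T) :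
    ∃ K : ℝ, 1 ≤ K ∧ ∀ x, ‖T x‖ ≤ K * ‖x‖ ∧ ‖x‖ ≤ K * ‖T x‖ := by
  obtain ⟨K, _, hK⟩ := T.exists_antilipschitzWith (LinearMap.ker_eq_bot.2 hT)
  obtain ⟨M, hM⟩ : ∃ M : ℝ, M = ‖LinearMap.toContinuousLinearMap T‖ := ⟨_, rfl⟩
  have hM0 : 0 ≤ M := hM ▸ norm_nonneg _
  have hK0 : (0 : ℝ) ≤ K := K.2
  refine ⟨1 + M + K, by linarith, fun x => ⟨?_, ?_⟩⟩
  · have h1 := (LinearMap.toContinuousLinearMap T).le_opNorm x
    rw [← hM] at h1
    have h2 : ‖T x‖ ≤ M * ‖x‖ := h1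
    have h3 := norm_nonneg x
    nlinarith
  · have h1 := hK.le_mul_dist x 0
    rw [map_zero, dist_zero_right, dist_zero_right] at h1
    have h3 := norm_nonneg (T x)
    nlinarith

theorem enq : EnqStmt := by
  intro X Y F
  obtain ⟨K1, hK1, h1⟩ := two_sided F.T F.Tinj
  obtain ⟨K2, hK2, h2⟩ := two_sided F.P F.Pinj
  obtain ⟨a, ha⟩ : ∃ a : ℝ, a = (X.m * X.m : ℝ) := ⟨_, rfl⟩
  obtain ⟨b, hb⟩ : ∃ b : ℝ, b = (Y.m * Y.m : ℝ) := ⟨_, rfl⟩
  have ha0 : 0 ≤ a := by rw [ha]; positivity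
  have hb0 : 0 ≤ b := by rw [hb]; positivity
  have hk1 : K1 ≤ K1 * (1 + a + b) + K2 := by nlinarith
  refine ⟨K1 * (1 + a + b) + K2, by linarith, fun x => ⟨?_, ?_⟩, fun c => ⟨?_, ?_⟩⟩
  · have i1 := (h1 x).1
    have i2 := sz_le_norm (F.T x)
    have i3 := norm_le_sz (x : Matrix (Fin X.m) (Fin X.m) ℝ)
    have i4 : ‖x‖ ≤ sz (x : Matrix (Fin X.m) (Fin X.m) ℝ) := i3
    have i5 := sz_nonneg (x : Matrix (Fin X.m) (Fin X.m) ℝ)
    rw [← hb] at i2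
    calc sz (F.T x) ≤ b * ‖F.T x‖ := i2
      _ ≤ b * (K1 * sz (x : Matrix (Fin X.m) (Fin X.m) ℝ)) :=
          mul_le_mul_of_nonneg_left (i1.trans (mul_le_mul_of_nonneg_left i4 (by linarith))) hb0
      _ = (K1 * b) * sz (x : Matrix (Fin X.m) (Fin X.m) ℝ) := by ring
      _ ≤ (K1 * (1 + a + b) + K2) * sz (x : Matrix (Fin X.m) (Fin X.m) ℝ) :=
          mul_le_mul_of_nonneg_right (by nlinarith) i5
  · have i1 := (h1 x).2
    have i2 := sz_le_norm (x : Matrix (Fin X.m) (Fin X.m) ℝ)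
    have i3 := norm_le_sz (F.T x)
    have i4 : ‖(x : Matrix (Fin X.m) (Fin X.m) ℝ)‖ ≤ K1 * ‖F.T x‖ := i1
    have i5 := sz_nonneg (F.T x)
    rw [← ha] at i2
    calc sz (x : Matrix (Fin X.m) (Fin X.m) ℝ) ≤ a * ‖(x : Matrix (Fin X.m) (Fin X.m) ℝ)‖ := i2
      _ ≤ a * (K1 * sz (F.T x)) :=
          mul_le_mul_of_nonneg_left (i4.trans (mul_le_mul_of_nonneg_left i3 (by linarith))) ha0
      _ = (K1 * a) * sz (F.T x) := by ring
      _ ≤ (K1 * (1 + a + b) + K2) * sz (F.T x) :=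
          mul_le_mul_of_nonneg_right (by nlinarith) i5
  · have i1 := (h2 c).1
    have i2 : ‖c‖ = ‖(c : Fin X.m → ℝ)‖ := rfl
    rw [i2] at i1
    exact i1.trans (mul_le_mul_of_nonneg_right (by nlinarith) (norm_nonneg _))
  · have i1 := (h2 c).2
    have i2 : ‖c‖ = ‖(c : Fin X.m → ℝ)‖ := rfl
    rw [i2] at i1
    exact i1.trans (mul_le_mul_of_nonneg_right (by nlinarith) (norm_nonneg _))

end Pool.Agent.QSX.H28
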