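import Pool.Agent.QSX.StmtsG

/-! Row LGM of squad QSX: logarithm and exponential of unitriangular matrices are inverse to each
other. -/

set_option autoImplicit false

namespace Pool.Agent.QSX.H28

open Matrix Finset Polynomial Pool.Agent.QSX

/-- truncated exponential polynomial -/
noncomputable def EE (m : ℕ) : ℝ[X] := ∑ k ∈ range (m + 1), ((k.factorial : ℝ)⁻¹) • (X : ℝ[X]) ^ k

/-- truncated logarithm polynomial -/
noncomputable def LL (m : ℕ) : ℝ[X] :=
  ∑ k ∈ range (m + 1), ((-1 : ℝ) ^ (k + 1) / (k : ℝ)) • (X : ℝ[X]) ^ k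

theorem EE_eq (m : ℕ) : EE m =
    (∑ k ∈ range m, (((k + 1).factorial : ℝ)⁻¹) • (X : ℝ[X]) ^ (k + 1)) + 1 := by
  rw [EE, Finset.sum_range_succ']
  simp

theorem LL_eq (m : ℕ) : LL m =
    ∑ k ∈ range m, ((-1 : ℝ) ^ (k + 2) / ((k : ℝ) + 1)) • (X : ℝ[X]) ^ (k + 1) := by
  rw [LL, Finset.sum_range_succ']
  simp

theorem X_dvd_EE (m : ℕ) : (X : ℝ[X]) ∣ EE m - 1 := by
  rw [EE_eq, add_sub_cancel_right]
  refine Finset.dvd_sum fun k _ => ?_
  rw [Polynomial.smul_eq_C_mul]
  exact Dvd.dvd.mul_left (dvd_pow_self _ (Nat.succ_ne_zero k)) _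

theorem X_dvd_LL (m : ℕ) : (X : ℝ[X]) ∣ LL m := by
  rw [LL_eq]
  refine Finset.dvd_sum fun k _ => ?_
  rw [Polynomial.smul_eq_C_mul]
  exact Dvd.dvd.mul_left (dvd_pow_self _ (Nat.succ_ne_zero k)) _

theorem deriv_EE (m : ℕ) :
    derivative (EE m) = EE m - C ((m.factorial : ℝ)⁻¹) * X ^ m := by
  rw [EE_eq, derivative_add, derivative_one, add_zero, derivative_sum, ← EE_eq, EE,
    Finset.sum_range_succ, Polynomial.smul_eq_C_mul, add_sub_cancel_right]
  refine Finset.sum_congr rfl fun k _ => ?_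
  rw [derivative_smul, derivative_X_pow, Nat.add_sub_cancel, Nat.factorial_succ,
    Polynomial.smul_eq_C_mul, Polynomial.smul_eq_C_mul, ← mul_assoc, ← C_mul]
  congr 2
  push_cast
  have h1 : ((k : ℝ) + 1) ≠ 0 := by positivity
  have h2 : (k.factorial : ℝ) ≠ 0 := by positivity
  field_simp

theorem deriv_LL (m : ℕ) :
    (1 + X) * derivative (LL m) = 1 - (-(X : ℝ[X])) ^ m := by
  have h : derivative (LL m) = ∑ k ∈ range m, (-(X : ℝ[X])) ^ k := by
    rw [LL_eq, derivative_sum]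
    refine Finset.sum_congr rfl fun k _ => ?_
    rw [derivative_smul, derivative_X_pow, Nat.add_sub_cancel, Polynomial.smul_eq_C_mul,
      ← mul_assoc, ← C_mul, neg_pow (X : ℝ[X]) k]
    congr 1
    have h1 : ((k : ℝ) + 1) ≠ 0 := by positivity
    have h2 : (-1 : ℝ) ^ (k + 2) / ((k : ℝ) + 1) * ((k + 1 : ℕ) : ℝ) = (-1) ^ k := by
      push_cast
      field_simp
      ring
    rw [h2]
    simp
  rw [h]
  have h2 := mul_neg_geom_sum (-(X : ℝ[X])) m
  rw [← h2, sub_neg_eq_add]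

theorem dvd_of_deriv (m : ℕ) (p : ℝ[X]) (h0 : p.coeff 0 = 0)
    (h : (X : ℝ[X]) ^ m ∣ derivative p) : (X : ℝ[X]) ^ (m + 1) ∣ p := by
  rw [X_pow_dvd_iff] at h ⊢
  intro d hd
  rcases d with _ | d
  · exact h0
  · have h1 := h d (by omega)
    rw [coeff_derivative] at h1
    rcases mul_eq_zero.1 h1 with h2 | h2
    · exact h2
    · exfalso
      have : (0 : ℝ) < (d : ℝ) + 1 := by positivity
      linarith

theorem LE (m : ℕ) : (X : ℝ[X]) ^ (m + 1) ∣ (LL m).comp (EE m - 1) - X := by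
  have hX := X_dvd_EE m
  have hL := X_dvd_LL m
  apply dvd_of_deriv
  · have h1 : (X : ℝ[X]) ∣ (LL m).comp (EE m - 1) - X := by
      refine dvd_sub ?_ dvd_rfl
      obtain ⟨q, hq⟩ := hL
      rw [hq, mul_comp, X_comp]
      exact Dvd.dvd.mul_right hX _
    rwa [X_dvd_iff] at h1
  · have h1 := congrArg (fun p : ℝ[X] => p.comp (EE m - 1)) (deriv_LL m)
    simp only [mul_comp, add_comp, one_comp, X_comp, sub_comp, pow_comp, neg_comp] at h1
    have h1' : EE m * (derivative (LL m)).comp (EE m - 1) = 1 - (-(EE m - 1)) ^ m := by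
      rw [← h1]; ring
    have h2 : derivative ((LL m).comp (EE m - 1) - X) =
        -((-(EE m - 1)) ^ m) -
          (derivative (LL m)).comp (EE m - 1) * C ((m.factorial : ℝ)⁻¹) * X ^ m := by
      rw [derivative_sub, derivative_comp, derivative_X, derivative_sub, derivative_one, sub_zero,
        deriv_EE]
      linear_combination h1'
    rw [h2]
    refine dvd_sub ?_ (Dvd.intro_left _ rfl)
    rw [dvd_neg]
    exact pow_dvd_pow_of_dvd (by rw [dvd_neg]; exact hX) m

theorem EL (m : ℕ) : (X : ℝ[X]) ^ (m + 1) ∣ (EE m).comp (LL m) - 1 - X := by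
  have hX := X_dvd_EE m
  have hL := X_dvd_LL m
  set v : ℝ[X] := (EE m).comp (LL m) - 1 - X with hv
  have h0 : v.coeff 0 = 0 := by
    have h1 : (X : ℝ[X]) ∣ v := by
      refine dvd_sub ?_ dvd_rfl
      obtain ⟨q, hq⟩ := hX
      have h2 : (EE m).comp (LL m) - 1 = (EE m - 1).comp (LL m) := by
        rw [sub_comp, one_comp]
      rw [h2, hq, mul_comp, X_comp]
      exact Dvd.dvd.mul_right hL _
    rwa [X_dvd_iff] at h1
  have h1 : (X : ℝ[X]) ^ m ∣ (1 + X) * derivative v - v := by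
    have h2 : (derivative (EE m)).comp (LL m) =
        (EE m).comp (LL m) - C ((m.factorial : ℝ)⁻¹) * (LL m) ^ m := by
      rw [deriv_EE]
      simp only [sub_comp, mul_comp, C_comp, pow_comp, X_comp]
    have h3 : (1 + X) * derivative v - v =
        -((-(X : ℝ[X])) ^ m) * (EE m).comp (LL m) -
          C ((m.factorial : ℝ)⁻¹) * (LL m) ^ m * (1 - (-(X : ℝ[X])) ^ m) := by
      rw [hv, derivative_sub, derivative_sub, derivative_X, derivative_one, sub_zero,
        derivative_comp, h2]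
      linear_combination ((EE m).comp (LL m) - C ((m.factorial : ℝ)⁻¹) * (LL m) ^ m) * deriv_LL m
    rw [h3]
    refine dvd_sub ?_ ?_
    · refine Dvd.dvd.mul_right ?_ _
      rw [dvd_neg]
      exact pow_dvd_pow_of_dvd (by rw [dvd_neg]) m
    · refine Dvd.dvd.mul_right ?_ _
      exact Dvd.dvd.mul_left (pow_dvd_pow_of_dvd hL m) _
  rw [X_pow_dvd_iff] at h1 ⊢
  intro d hd
  induction d with
  | zero => exact h0
  | succ d ih =>
    have h4 := h1 d (by omega)
    have h5 := ih (by omega)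
    rw [coeff_sub, add_mul, one_mul, coeff_add, coeff_derivative, h5, sub_zero] at h4
    have h6 : ((X : ℝ[X]) * derivative v).coeff d = 0 := by
      rcases d with _ | d
      · exact coeff_X_mul_zero _
      · rw [coeff_X_mul, coeff_derivative, h5, zero_mul]
    rw [h6, add_zero] at h4
    rcases mul_eq_zero.1 h4 with h7 | h7
    · exact h7
    · exfalso
      have : (0 : ℝ) < (d : ℝ) + 1 := by positivity
      linarith

section mat

variable {R : Type} [CommRing R] [Algebra ℝ R] {m : ℕ}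

omit [Algebra ℝ R] in
theorem SU.sum {ι : Type} (s : Finset ι) (f : ι → Matrix (Fin m) (Fin m) R)
    (h : ∀ i ∈ s, SU (f i)) : SU (∑ i ∈ s, f i) := by
  intro i j hij
  rw [Matrix.sum_apply]
  exact Finset.sum_eq_zero fun k hk => h k hk i j hij

omit [Algebra ℝ R] in
theorem SU.pow {x : Matrix (Fin m) (Fin m) R} (hx : SU x) (k : ℕ) : SU (x ^ (k + 1)) := by
  intro i j hij
  apply hx.pow_apply
  rw [Fin.le_def] at hij
  omega

theorem aeval_EE (x : Matrix (Fin m) (Fin m) R) : aeval x (EE m) = mexp x := by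
  rw [EE, mexp, map_sum]
  refine Finset.sum_congr rfl fun k _ => ?_
  rw [map_smul, map_pow, aeval_X]

theorem aeval_LL (x : Matrix (Fin m) (Fin m) R) : aeval (x - 1) (LL m) = mlog x := by
  rw [LL, mlog, map_sum]
  refine Finset.sum_congr rfl fun k _ => ?_
  rw [map_smul, map_pow, aeval_X]

theorem aeval_zero {x : Matrix (Fin m) (Fin m) R} (hx : SU x) (p : ℝ[X])
    (hp : (X : ℝ[X]) ^ (m + 1) ∣ p) : aeval x p = 0 := by
  obtain ⟨q, rfl⟩ := hp
  rw [map_mul, map_pow, aeval_X, hx.pow_eq_zero (Nat.le_succ m), zero_mul]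

theorem uu_mexp {x : Matrix (Fin m) (Fin m) R} (hx : SU x) : UU (mexp x) := by
  have h : mexp x - 1 = ∑ k ∈ range m, (((k + 1).factorial : ℝ)⁻¹) • x ^ (k + 1) := by
    rw [mexp, Finset.sum_range_succ']
    simp
  rw [UU, h]
  exact SU.sum _ _ fun k _ => (SU.pow hx k).smul _

theorem su_mlog {g : Matrix (Fin m) (Fin m) R} (hg : UU g) : SU (mlog g) := by
  have h : mlog g = ∑ k ∈ range m, ((-1 : ℝ) ^ (k + 2) / ((k : ℝ) + 1)) • (g - 1) ^ (k + 1) := by
    rw [mlog, Finset.sum_range_succ']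
    simp
  rw [h]
  exact SU.sum _ _ fun k _ => (SU.pow hg k).smul _

end mat

theorem lgm : LgmStmt := by
  intro R _ _ m
  refine ⟨fun x hx => ⟨uu_mexp hx, ?_⟩, fun g hg => ⟨su_mlog hg, ?_⟩⟩
  · have h := aeval_zero hx _ (LE m)
    rw [map_sub, aeval_X, sub_eq_zero, aeval_comp, map_sub, map_one, aeval_EE, aeval_LL] at h
    exact h
  · have h := aeval_zero (x := g - 1) hg _ (EL m)
    rw [map_sub, map_sub, map_one, aeval_X, aeval_comp, aeval_LL, aeval_EE, sub_sub,
      sub_eq_zero] at h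
    rw [h]
    abel

end Pool.Agent.QSX.H28
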