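import Pool.Agent.QSX.StmtsG

/-! Row MCJ of squad QSX: conjugation of the exponential. -/

set_option autoImplicit false

namespace Pool.Agent.QSX.H28

open Matrix Finset Pool.Agent.QSX

theorem mcj : McjStmt := by
  intro R _ _ m p x hx hpx
  apply Units.ext
  rw [ue_val hpx, Units.val_mul, Units.val_mul, ue_val hx, mexp, mexp, Finset.mul_sum,
    Finset.sum_mul]
  refine Finset.sum_congr rfl fun k _ => ?_
  rw [Units.conj_pow, mul_smul_comm, smul_mul_assoc]

end Pool.Agent.QSX.H28
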